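import Pool.Agent.Helper674.CubeLines

set_option autoImplicit false
open Finset

namespace Pool.Agent.Results.MP_fd3312_co.LogLower

open Pool.Agent.Helper674.CubeLines

/-- The point of `{1,2,3}^d ⊆ ℝ^d` given by `x : Fin d → Fin 3`. -/
def pt {d : ℕ} (x : Fin d → Fin 3) : Fin d → ℝ := fun i => ((x i : ℕ) : ℝ) + 1

/-- `χ` is a partition of the points of `{1,2,3}^d` into `k` (possibly empty) classes such that no
three distinct points of the same class are collinear in `ℝ^d`. -/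
def IsGenPosColouring {d k : ℕ} (χ : (Fin d → Fin 3) → Fin k) : Prop :=
  ∀ x y z : Fin d → Fin 3, x ≠ y → x ≠ z → y ≠ z → χ x = χ y → χ y = χ z →
    ¬ Collinear ℝ ({pt x, pt y, pt z} : Set (Fin d → ℝ))

/-- `f d` is the least number of classes. -/
noncomputable def f (d : ℕ) : ℕ :=
  sInf {k : ℕ | ∃ χ : (Fin d → Fin 3) → Fin k, IsGenPosColouring χ}

lemma f_mem (d : ℕ) : ∃ χ : (Fin d → Fin 3) → Fin (f d), IsGenPosColouring χ := by
  have hne : {k : ℕ | ∃ χ : (Fin d → Fin 3) → Fin k, IsGenPosColouring χ}.Nonempty := by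
    refine ⟨Fintype.card (Fin d → Fin 3), Fintype.equivFin _, ?_⟩
    intro x y z hxy _ _ h _ _
    exact hxy ((Fintype.equivFin _).injective h)
  exact Nat.sInf_mem hne

lemma not_genPos {d k : ℕ} (hd : (2 ^ k - 1) * (2 * Nat.clog 2 k + 1) ≤ d)
    (χ : (Fin d → Fin 3) → Fin k) : ¬ IsGenPosColouring χ := by
  intro h
  obtain ⟨P, Q, R, ⟨hPR, hl⟩, h1, h2⟩ := exists_line d k hd χ
  have hPQ : P ≠ Q := by
    rintro rfl
    apply hPR
    funext i
    have := hl i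
    exact Fin.ext (by omega)
  have hQR : Q ≠ R := by
    rintro rfl
    apply hPR
    funext i
    have := hl i
    exact Fin.ext (by omega)
  refine h P Q R hPQ hPR hQR h1 h2 ?_
  rw [collinear_iff_exists_forall_eq_smul_vadd]
  refine ⟨pt P, pt Q - pt P, ?_⟩
  intro p hp
  simp only [Set.mem_insert_iff, Set.mem_singleton_iff] at hp
  rcases hp with rfl | rfl | rfl
  · exact ⟨0, by simp⟩
  · exact ⟨1, by simp⟩
  · refine ⟨2, ?_⟩
    funext i
    have := hl i
    have h3 : ((P i : ℕ) : ℝ) + ((R i : ℕ) : ℝ) = 2 * ((Q i : ℕ) : ℝ) := by exact_mod_cast this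
    simp only [pt, vadd_eq_add, Pi.add_apply, Pi.smul_apply, smul_eq_mul, Pi.sub_apply]
    linarith

lemma lt_bound (d : ℕ) : d < (2 ^ f d - 1) * (2 * Nat.clog 2 (f d) + 1) := by
  obtain ⟨χ, hχ⟩ := f_mem d
  by_contra h
  exact not_genPos (not_lt.1 h) χ hχ

lemma clog_le_self (k : ℕ) : Nat.clog 2 k ≤ k :=
  Nat.clog_le_of_le_pow (Nat.lt_two_pow_self).le

lemma asymp : ∀ ε : ℝ, 0 < ε → ∃ N : ℕ, ∀ d : ℕ, N ≤ d →
    Real.logb 2 d ≤ (1 + ε) * f d := by
  intro ε hε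
  have h0 : Filter.Tendsto (fun x : ℝ => Real.log x / x) Filter.atTop (nhds 0) :=
    Real.isLittleO_log_id_atTop.tendsto_div_nhds_zero
  have hl2 : 0 < Real.log 2 := Real.log_pos (by norm_num)
  have h1 := h0.eventually (gt_mem_nhds (show (0 : ℝ) < ε * Real.log 2 / 3 by positivity))
  rw [Filter.eventually_atTop] at h1
  obtain ⟨x0, hx0⟩ := h1
  obtain ⟨F0, hF0⟩ := exists_nat_ge (max x0 1)
  refine ⟨2 ^ F0 * (2 * F0 + 1), fun d hd => ?_⟩
  have hlt := lt_bound d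
  set k := f d with hk
  have hclog := clog_le_self k
  have hlt2 : d < 2 ^ k * (2 * k + 1) := by
    refine lt_of_lt_of_le hlt ?_
    exact Nat.mul_le_mul (Nat.sub_le _ _) (by omega)
  have hkF : F0 ≤ k := by
    by_contra hcon
    push Not at hcon
    have : 2 ^ k * (2 * k + 1) ≤ 2 ^ F0 * (2 * F0 + 1) :=
      Nat.mul_le_mul (Nat.pow_le_pow_right (by norm_num) hcon.le) (by omega)
    omega
  have hF1 : (1 : ℝ) ≤ F0 := le_trans (le_max_right _ _) hF0
  have hFx : x0 ≤ F0 := le_trans (le_max_left _ _) hF0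
  have hkR : (F0 : ℝ) ≤ k := by exact_mod_cast hkF
  have hk1 : (1 : ℝ) ≤ k := le_trans hF1 hkR
  have hF0pos : 0 < F0 := by exact_mod_cast (lt_of_lt_of_le one_pos hF1)
  have hdpos : 0 < d := by
    have : 0 < 2 ^ F0 * (2 * F0 + 1) := by positivity
    omega
  have hdR : (0 : ℝ) < d := by exact_mod_cast hdpos
  have h3 : Real.log (2 * k + 1) ≤ ε * Real.log 2 * k := by
    have h4 := hx0 (2 * k + 1) (by linarith)
    have hpos : (0 : ℝ) < 2 * k + 1 := by linarith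
    rw [div_lt_iff₀ hpos] at h4
    have h5 : ε * Real.log 2 / 3 * (2 * k + 1) ≤ ε * Real.log 2 / 3 * (3 * k) :=
      mul_le_mul_of_nonneg_left (by linarith) (by positivity)
    linarith
  have h6 : Real.log d ≤ k * Real.log 2 + Real.log (2 * k + 1) := by
    have h7 : (d : ℝ) ≤ 2 ^ k * (2 * k + 1) := by exact_mod_cast hlt2.le
    have h8 := Real.log_le_log hdR h7
    rwa [Real.log_mul (by positivity) (by positivity), Real.log_pow] at h8
  rw [Real.logb, div_le_iff₀ hl2]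
  linarith

/-- The number `f(d)` of parts satisfies `d < (2^{f(d)} - 1) (2 ⌈log₂ f(d)⌉ + 1)` for every `d`;
in particular `f(d) ≥ (1 - o(1)) log₂ d`. -/
theorem result :
    (∀ d k : ℕ, (2 ^ k - 1) * (2 * Nat.clog 2 k + 1) ≤ d →
      ∀ χ : (Fin d → Fin 3) → Fin k, ¬ IsGenPosColouring χ) ∧
    (∀ d : ℕ, d < (2 ^ f d - 1) * (2 * Nat.clog 2 (f d) + 1)) ∧
    (∀ ε : ℝ, 0 < ε → ∃ N : ℕ, ∀ d : ℕ, N ≤ d → Real.logb 2 d ≤ (1 + ε) * f d) :=
  ⟨fun _ _ h χ => not_genPos h χ, lt_bound, asymp⟩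

end Pool.Agent.Results.MP_fd3312_co.LogLower
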