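import Pool.Agent.Helper431.Moser3

set_option autoImplicit false
open Finset

namespace Pool.Agent.Results.MP_fd3312_co.Sublinear

open Pool.Agent.Helper431.Moser

/-- For every `ε > 0` and all large `d` the points of `{1,2,3}^d` can be partitioned into at most
`ε d` sets in general position. -/
theorem result : ∀ ε : ℝ, 0 < ε → ∃ N : ℕ, ∀ d : ℕ, N ≤ d →
    ∃ k : ℕ, (k : ℝ) ≤ ε * d ∧ ∃ χ : (Fin d → Fin 3) → Fin k,
      ∀ x y z : Fin d → Fin 3, x ≠ y → x ≠ z → y ≠ z → χ x = χ y → χ y = χ z →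
        ¬ Collinear ℝ ({(fun i => ((x i : ℕ) : ℝ) + 1), (fun i => ((y i : ℕ) : ℝ) + 1),
          (fun i => ((z i : ℕ) : ℝ) + 1)} : Set (Fin d → ℝ)) := by
  intro ε hε
  obtain ⟨w, hw⟩ := exists_nat_ge (max (16 * 1) (2 / ε))
  have hw16 : (16 : ℝ) * 1 ≤ w := le_trans (le_max_left _ _) hw
  have hwε : 2 / ε ≤ w := le_trans (le_max_right _ _) hw
  have hw0 : 0 < w := by
    have : (0 : ℝ) < w := by linarith
    exact_mod_cast this
  set κ := kap (8 * w) w with hκ
  obtain ⟨q0, hq0⟩ := exists_nat_ge (2 + 16 * 1 + 8 * 1 * κ * (32 * (w : ℝ) ^ 2 + 1))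
  obtain ⟨N1, hN1⟩ := exists_nat_ge (1 / ε ^ 2)
  refine ⟨max (q0 ^ 8 + 1) N1, fun n hn => ?_⟩
  have hn1 : q0 ^ 8 + 1 ≤ n := le_trans (le_max_left _ _) hn
  have hn2 : N1 ≤ n := le_trans (le_max_right _ _) hn
  have hn0 : 0 < n := by omega
  obtain ⟨q, hq1, hq2⟩ : ∃ q : ℕ, q ^ 8 ≤ 2 * n ∧ 2 * n < (q + 1) ^ 8 := by
    have hex : ∃ m : ℕ, 2 * n < (m + 1) ^ 8 := ⟨2 * n, by
      have : 2 * n + 1 ≤ (2 * n + 1) ^ 8 := Nat.le_self_pow (by norm_num) _
      omega⟩
    refine ⟨Nat.find hex, ?_, Nat.find_spec hex⟩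
    rcases Nat.eq_zero_or_pos (Nat.find hex) with h0 | h0
    · rw [h0]; simp
    · have := Nat.find_min hex (m := Nat.find hex - 1) (by omega)
      rw [Nat.sub_add_cancel h0] at this
      omega
  have hqq0 : q0 ≤ q := by
    by_contra hlt
    push Not at hlt
    have : (q + 1) ^ 8 ≤ q0 ^ 8 := Nat.pow_le_pow_left hlt 8
    omega
  have hfin := final_ineq (c := 1) one_pos hw0 hw16 (κ := κ)
    (hq0.trans (by exact_mod_cast hqq0)) hq1
  set M := q + 1 with hM
  set Cm := κ * (w * (8 * w) * M ^ 2) + κ with hCm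
  have hcol : ∀ x : Fin n → Fin 3, F M (8 * w) w (uu x) / w < n / w + (2 + Cm) := by
    intro x
    have h4 := col_le (M := M) (D := 8 * w) (w := w) (by omega) (uu x)
    rw [← hκ, ← hCm] at h4
    apply Nat.div_lt_of_lt_mul
    unfold F
    have e0 : supp (uu x) ≤ n := by
      unfold supp
      exact (card_filter_le _ _).trans (by rw [card_univ, Fintype.card_fin])
    have e1 := Nat.div_add_mod n w
    have e2 := Nat.mod_lt n hw0
    have e5 : w * col M (8 * w) w (uu x) ≤ w * Cm := Nat.mul_le_mul_left _ h4.le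
    have e6 : w * (n / w + (2 + Cm)) = w * (n / w) + w + w + w * Cm := by ring
    omega
  refine ⟨n / w + (2 + Cm), ?_, fun x => ⟨F M (8 * w) w (uu x) / w, hcol x⟩, ?_⟩
  · -- the count
    have hR0 : 0 ≤ Real.sqrt n := Real.sqrt_nonneg _
    have hs2 : Real.sqrt n ^ 2 = n := Real.sq_sqrt (Nat.cast_nonneg n)
    have hwR : (0 : ℝ) < w := by exact_mod_cast hw0
    have h1 : ((2 + Cm : ℕ) : ℝ) ≤ Real.sqrt n / 2 := by
      have h2 : ((2 + Cm : ℕ) : ℝ) ≤ ((4 * (Nat.sqrt n + 1) / w + 2 + Cm : ℕ) : ℝ) := by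
        have : 2 + Cm ≤ 4 * (Nat.sqrt n + 1) / w + 2 + Cm := by
          have := Nat.zero_le (4 * (Nat.sqrt n + 1) / w)
          linarith
        exact_mod_cast this
      linarith
    have h3 : ((n / w : ℕ) : ℝ) ≤ ε / 2 * n := by
      have h4 : ((n / w : ℕ) : ℝ) ≤ (n : ℝ) / w := Nat.cast_div_le
      have h5 : (1 : ℝ) / w ≤ ε / 2 := by
        rw [div_le_iff₀ hε] at hwε
        rw [div_le_div_iff₀ hwR (by norm_num)]
        linarith
      have h6 : (n : ℝ) / w = (1 / w) * n := by ring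
      rw [h6] at h4
      exact h4.trans (mul_le_mul_of_nonneg_right h5 (Nat.cast_nonneg n))
    have h7 : Real.sqrt n ≤ ε * n := by
      have h8 : (1 : ℝ) / ε ^ 2 ≤ n := hN1.trans (by exact_mod_cast hn2)
      rw [div_le_iff₀ (by positivity)] at h8
      have h9 : 1 ≤ ε * Real.sqrt n := by
        have : (1 : ℝ) ^ 2 ≤ (ε * Real.sqrt n) ^ 2 := by
          rw [mul_pow, hs2]; linarith
        exact (pow_le_pow_iff_left₀ (by norm_num) (by positivity) (by norm_num)).1 this
      calc Real.sqrt n = 1 * Real.sqrt n := (one_mul _).symm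
        _ ≤ (ε * Real.sqrt n) * Real.sqrt n := mul_le_mul_of_nonneg_right h9 hR0
        _ = ε * n := by rw [mul_assoc, ← pow_two, hs2]
    push_cast at h1 ⊢
    linarith
  · intro x y z hxy hxz hyz hc1 hc2 hcol3
    have hT : ({x, y, z} : Finset (Fin n → Fin 3)).card = 3 :=
      Finset.card_eq_three.2 ⟨x, y, z, hxy, hxz, hyz, rfl⟩
    obtain ⟨a, ha, b, hb, e, he, htr⟩ := triple_of_collinear (le_refl 3) {x, y, z} hT (by
      rw [collinear_iff_exists_forall_eq_smul_vadd] at hcol3 ⊢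
      obtain ⟨p0, v, hv⟩ := hcol3
      refine ⟨p0 - 1, v, ?_⟩
      rintro t ⟨u, hu, rfl⟩
      have htm : (fun i => ((u i : ℕ) : ℝ) + 1) ∈ ({(fun i => ((x i : ℕ) : ℝ) + 1),
          (fun i => ((y i : ℕ) : ℝ) + 1), (fun i => ((z i : ℕ) : ℝ) + 1)} :
          Set (Fin n → ℝ)) := by
        simp only [Finset.coe_insert, Finset.coe_singleton, Set.mem_insert_iff,
          Set.mem_singleton_iff] at hu ⊢
        rcases hu with rfl | rfl | rfl
        · exact Or.inl rfl
        · exact Or.inr (Or.inl rfl)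
        · exact Or.inr (Or.inr rfl)
      obtain ⟨s, hs⟩ := hv _ htm
      refine ⟨s, ?_⟩
      funext i
      have := congrFun hs i
      simp only [vadd_eq_add, Pi.add_apply, Pi.smul_apply, smul_eq_mul, Pi.sub_apply,
        Pi.one_apply] at this ⊢
      linarith)
    have hlab : ∀ (x : Fin n → Fin 3), ∀ j < w, lab (uu x) j < M ^ (8 * w) := fun x j hj =>
      lab_lt hn0 hw0 hq2 x j hj
    have hsame : ∀ u ∈ ({x, y, z} : Finset (Fin n → Fin 3)),
        F M (8 * w) w (uu u) / w = F M (8 * w) w (uu x) / w := by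
      intro u hu
      have k1 := congrArg Fin.val hc1
      have k2 := congrArg Fin.val hc2
      simp only at k1 k2
      simp only [Finset.mem_insert, Finset.mem_singleton] at hu
      rcases hu with rfl | rfl | rfl
      · rfl
      · exact k1.symm
      · exact (k1.trans k2).symm
    exact no_triple hw0 htr (hlab a) (hlab e) ((hsame a ha).trans (hsame e he).symm)
      ((hsame a ha).trans (hsame b hb).symm)

end Pool.Agent.Results.MP_fd3312_co.Sublinear
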